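import Mathlib
import Pool.Agent.Helper96.UrnDefs
import Pool.Agent.Helper96.UrnCube

open Pool.Agent.Helper96.Urn

namespace Pool.Agent.Results.MP_d3f74f_pr.CoexistenceOnHypercubes

/-- Coexistence in the competing urn scheme on hypercubes: for `K ≥ 4` and `n ≥ 4`, and also for
`K = 3` and `n ≥ 8`, there is an initial configuration on `Q_n` from which, with positive
probability, the types `0, 1, 2` are all present at every time. -/
theorem result (K n : ℕ) (h : (4 ≤ K ∧ 4 ≤ n) ∨ (3 ≤ K ∧ 8 ≤ n)) :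
    ∃ η₀ : Config (Fin n → Bool) K,
      (∀ v i j, 0 < η₀ v i → 0 < η₀ v j → i = j) ∧ η₀ ≠ 0 ∧
      0 < urnLaw (hypercube n) η₀ {ω | ∀ t : ℝ, 0 ≤ t →
        ∃ m, jumpTime ω m ≤ t ∧ t < jumpTime ω (m + 1) ∧
          ∀ i : Fin K, (i : ℕ) < 3 → ∃ v, 0 < ω.1 m v i} :=
  cube_coexist K n h

end Pool.Agent.Results.MP_d3f74f_pr.CoexistenceOnHypercubes
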